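import Pool.Agent.L0h98.GS.Def

set_option autoImplicit false

/-!
# Project GS, piece CYC: the expected number of the edges on short closed trails is bounded
-/

namespace Pool.Agent.L0h47.GS

open Finset Classical Pool.Agent.L0h98.GS
open Pool.Agent.N404.LF (cnt)

section general

variable {X V : Type} [Fintype X] [DecidableEq X]

/-- the permutations for which the positions of each pair of `L` get labels with equal owners -/
noncomputable def Zp (a : X → V) (L : List (X × X)) : Finset (Equiv.Perm X) :=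
  univ.filter fun π => ∀ p ∈ L, a (π p.1) = a (π p.2)

lemma mem_Zp (a : X → V) (L : List (X × X)) (π : Equiv.Perm X) :
    π ∈ Zp a L ↔ ∀ p ∈ L, a (π p.1) = a (π p.2) := by
  unfold Zp
  rw [mem_filter]
  exact ⟨fun h => h.2, fun h => ⟨mem_univ _, h⟩⟩

omit [DecidableEq X] in
lemma pre_card (a : X → V) (Δ : ℕ) (hΔ : ∀ v, cnt a v ≤ Δ) (π : Equiv.Perm X) (v : V) :
    (univ.filter fun y => a (π y) = v).card ≤ Δ := by
  refine le_trans ?_ (hΔ v)
  unfold cnt
  refine card_le_card_of_injOn (fun y => π y) ?_ ?_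
  · intro y hy
    exact mem_coe.2 (mem_filter.2 ⟨mem_univ _, (mem_filter.1 (mem_coe.1 hy)).2⟩)
  · intro y _ z _ h
    exact π.injective h

lemma step (a : X → V) (Δ : ℕ) (hΔ : ∀ v, cnt a v ≤ Δ) (P Q : X) (L : List (X × X))
    (h : (((P, Q) :: L).map Prod.fst ++ ((P, Q) :: L).map Prod.snd).Nodup) :
    (Fintype.card X - (2 * L.length + 1)) * (Zp a ((P, Q) :: L)).card ≤ Δ * (Zp a L).card := by
  set S : Finset X := (P :: (L.map Prod.fst ++ L.map Prod.snd)).toFinset with hS
  have hSc : S.card ≤ 2 * L.length + 1 := by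
    refine (List.toFinset_card_le _).trans ?_
    simp
    omega
  have hPQ : P ≠ Q := by
    intro e
    subst e
    simp only [List.map_cons, List.cons_append, List.nodup_cons, List.mem_append,
      List.mem_cons] at h
    exact h.1 (Or.inr (by simp))
  have hPL : ∀ p ∈ L, p.1 ≠ P ∧ p.2 ≠ P ∧ p.1 ≠ Q ∧ p.2 ≠ Q := by
    intro p hp
    have h1 : p.1 ∈ L.map Prod.fst := List.mem_map_of_mem hp
    have h2 : p.2 ∈ L.map Prod.snd := List.mem_map_of_mem hp
    simp only [List.map_cons, List.cons_append, List.nodup_cons, List.mem_append,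
      List.mem_cons, List.nodup_append, not_or] at h
    obtain ⟨⟨h3, h4, h5⟩, h6, ⟨h7, h8⟩, h9⟩ := h
    refine ⟨?_, ?_, ?_, ?_⟩
    · intro e
      exact h3 (e ▸ h1)
    · intro e
      exact h5 (e ▸ h2)
    · intro e
      exact h9 _ h1 Q (Or.inl rfl) e
    · intro e
      exact h7 (e ▸ h2)
  have h1 : ((Zp a ((P, Q) :: L)) ×ˢ Sᶜ).card ≤
      ((Zp a L).sigma fun π => univ.filter fun y => a (π y) = a (π P)).card := by
    apply card_le_card_of_injOn
      (fun p => (⟨p.1 * Equiv.swap Q p.2, p.2⟩ : (_ : Equiv.Perm X) × X))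
    · rintro ⟨π, y⟩ hp
      rw [mem_coe, mem_product] at hp
      obtain ⟨hp1, hp2⟩ := hp
      have hy : y ∉ S := mem_compl.1 hp2
      have hπ := (mem_Zp _ _ _).1 hp1
      have hyP : y ≠ P := by
        intro e
        exact hy (by rw [hS, e]; simp)
      rw [mem_coe, mem_sigma]
      refine ⟨(mem_Zp _ _ _).2 fun p hp => ?_, mem_filter.2 ⟨mem_univ _, ?_⟩⟩
      · obtain ⟨h2, h3, h4, h5⟩ := hPL p hp
        have h6 : p.1 ≠ y := by
          intro e
          refine hy ?_
          rw [hS, ← e]
          simp only [List.mem_toFinset, List.mem_cons, List.mem_append]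
          exact Or.inr (Or.inl (List.mem_map_of_mem hp))
        have h7 : p.2 ≠ y := by
          intro e
          refine hy ?_
          rw [hS, ← e]
          simp only [List.mem_toFinset, List.mem_cons, List.mem_append]
          exact Or.inr (Or.inr (List.mem_map_of_mem hp))
        show a ((π * Equiv.swap Q y) p.1) = a ((π * Equiv.swap Q y) p.2)
        rw [Equiv.Perm.mul_apply, Equiv.Perm.mul_apply, Equiv.swap_apply_of_ne_of_ne h4 h6,
          Equiv.swap_apply_of_ne_of_ne h5 h7]
        exact hπ p (List.mem_cons_of_mem _ hp)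
      · show a ((π * Equiv.swap Q y) y) = a ((π * Equiv.swap Q y) P)
        rw [Equiv.Perm.mul_apply, Equiv.Perm.mul_apply, Equiv.swap_apply_right,
          Equiv.swap_apply_of_ne_of_ne hPQ hyP.symm]
        exact (hπ (P, Q) List.mem_cons_self).symm
    · rintro ⟨π, y⟩ _ ⟨π', y'⟩ _ h
      simp only [Sigma.mk.injEq, heq_eq_eq] at h
      obtain ⟨h1, h2⟩ := h
      subst h2
      rw [mul_left_inj] at h1
      rw [h1]
  rw [card_product, card_compl, card_sigma] at h1
  calc (Fintype.card X - (2 * L.length + 1)) * (Zp a ((P, Q) :: L)).card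
      ≤ (Fintype.card X - S.card) * (Zp a ((P, Q) :: L)).card :=
        Nat.mul_le_mul_right _ (Nat.sub_le_sub_left hSc _)
    _ = (Zp a ((P, Q) :: L)).card * (Fintype.card X - S.card) := mul_comm _ _
    _ ≤ ∑ π ∈ Zp a L, (univ.filter fun y => a (π y) = a (π P)).card := h1
    _ ≤ ∑ π ∈ Zp a L, Δ := sum_le_sum fun π _ => pre_card a Δ hΔ π _
    _ = Δ * (Zp a L).card := by rw [sum_const, smul_eq_mul, mul_comm]

lemma zp_card (a : X → V) (Δ : ℕ) (hΔ : ∀ v, cnt a v ≤ Δ) (L : List (X × X))
    (h : (L.map Prod.fst ++ L.map Prod.snd).Nodup) (hL : 4 * L.length ≤ Fintype.card X) :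
    Fintype.card X ^ L.length * (Zp a L).card ≤
      (2 * Δ) ^ L.length * (Fintype.card X).factorial := by
  induction L with
  | nil =>
    have h1 : (Zp a ([] : List (X × X))).card ≤ (Fintype.card X).factorial := by
      calc (Zp a ([] : List (X × X))).card ≤ (univ : Finset (Equiv.Perm X)).card :=
            card_le_card (filter_subset _ _)
        _ = (Fintype.card X).factorial := by rw [card_univ, Fintype.card_perm]
    simpa using h1
  | cons p L ih =>
    obtain ⟨P, Q⟩ := p
    have hn : (L.map Prod.fst ++ L.map Prod.snd).Nodup := by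
      refine h.sublist ?_
      simp only [List.map_cons]
      exact (List.sublist_cons_self _ _).append (List.sublist_cons_self _ _)
    simp only [List.length_cons] at hL ⊢
    have h1 := ih hn (by omega)
    have h2 := step a Δ hΔ P Q L h
    set N := Fintype.card X with hN
    have h3 : N * (Zp a ((P, Q) :: L)).card ≤ 2 * Δ * (Zp a L).card := by
      calc N * (Zp a ((P, Q) :: L)).card
          ≤ (2 * (N - (2 * L.length + 1))) * (Zp a ((P, Q) :: L)).card :=
            Nat.mul_le_mul_right _ (by omega)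
        _ = 2 * ((N - (2 * L.length + 1)) * (Zp a ((P, Q) :: L)).card) := by ring
        _ ≤ 2 * (Δ * (Zp a L).card) := Nat.mul_le_mul_left _ h2
        _ = _ := by ring
    calc N ^ (L.length + 1) * (Zp a ((P, Q) :: L)).card
        = N ^ L.length * (N * (Zp a ((P, Q) :: L)).card) := by ring
      _ ≤ N ^ L.length * (2 * Δ * (Zp a L).card) := Nat.mul_le_mul_left _ h3
      _ = 2 * Δ * (N ^ L.length * (Zp a L).card) := by ring
      _ ≤ 2 * Δ * ((2 * Δ) ^ L.length * N.factorial) := Nat.mul_le_mul_left _ h1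
      _ = _ := by ring

end general

/-- the pairs of positions of a chain -/
def prs {m : ℕ} : Hf m → List (Hf m) → List (Hf m × Hf m)
  | _, [] => []
  | x, y :: l => (fl x, y) :: prs y l

lemma prs_chain {V : Type} {m : ℕ} (a : Hf m → V) (π : Equiv.Perm (Hf m)) :
    ∀ (l : List (Hf m)) (x : Hf m), List.IsChain (Lk a π) (x :: l) →
      ∀ p ∈ prs x l, a (π p.1) = a (π p.2)
  | [], x, _, p, hp => by simp [prs] at hp
  | y :: l, x, h, p, hp => by
    rw [List.isChain_cons_cons] at h
    rw [prs, List.mem_cons] at hp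
    rcases hp with rfl | hp
    · exact h.1
    · exact prs_chain a π l y h.2 p hp

lemma prs_snd {m : ℕ} : ∀ (l : List (Hf m)) (x : Hf m), (prs x l).map Prod.snd = l
  | [], x => rfl
  | y :: l, x => by rw [prs, List.map_cons, prs_snd l y]

lemma prs_fst {m : ℕ} : ∀ (l : List (Hf m)) (x z : Hf m),
    (prs x (l ++ [z])).map Prod.fst = (x :: l).map fl
  | [], x, z => rfl
  | y :: l, x, z => by
    rw [List.cons_append, prs, List.map_cons, prs_fst l y z]
    rfl

lemma prs_len {m : ℕ} (l : List (Hf m)) (x : Hf m) : (prs x l).length = l.length := by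
  rw [← List.length_map (as := prs x l) Prod.snd, prs_snd]

lemma prs_nodup {m : ℕ} (l : List (Hf m)) (x : Hf m) (h : (x.1 :: l.map Prod.fst).Nodup) :
    ((prs x (l ++ [x])).map Prod.fst ++ (prs x (l ++ [x])).map Prod.snd).Nodup := by
  rw [prs_fst, prs_snd]
  have h1 : ((x :: l).map Prod.fst).Nodup := h
  have h2 : (x :: l).Nodup := List.Nodup.of_map _ h1
  have h3 : ∀ y ∈ x :: l, ∀ z ∈ x :: l, y.1 = z.1 → y = z := by
    intro y hy z hz e
    exact List.inj_on_of_nodup_map h1 hy hz e
  rw [List.nodup_append]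
  refine ⟨?_, ?_, ?_⟩
  · refine h2.map ?_
    intro y z e
    simp only [fl, Prod.mk.injEq] at e
    refine Prod.ext e.1 ?_
    have := e.2
    revert this
    cases y.2 <;> cases z.2 <;> simp
  · rw [List.nodup_append]
    rw [List.nodup_cons] at h2
    refine ⟨h2.2, List.nodup_singleton _, ?_⟩
    intro y hy z hz e
    rw [List.mem_singleton] at hz
    exact h2.1 (by rw [← hz, ← e]; exact hy)
  · intro y hy z hz e
    obtain ⟨y', hy', rfl⟩ := List.mem_map.1 hy
    have hz' : z ∈ x :: l := by
      rw [List.mem_append, List.mem_singleton] at hz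
      rw [List.mem_cons]
      tauto
    have h4 := h3 y' hy' z hz' (by rw [← e]; rfl)
    rw [h4] at e
    have h5 : (!z.2) = z.2 := congrArg Prod.snd e
    revert h5
    cases z.2 <;> simp

/-- **CYC** -/
theorem t_CYC : S_CYC := by
  intro Δ g
  refine ⟨∑ r ∈ range g, (2 * Δ) ^ (r + 1), 2 * g + 1, fun V m a hm hΔ => ?_⟩
  have hN : Fintype.card (Hf m) = 2 * m := by
    rw [Fintype.card_prod, Fintype.card_fin, Fintype.card_bool, mul_comm]
  set M := (2 * m).factorial with hM
  have h0 : ∑ π : Equiv.Perm (Hf m), (univ.filter fun i => Bad g a π i).card =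
      ∑ i : Fin m, (univ.filter fun π : Equiv.Perm (Hf m) => Bad g a π i).card := by
    simp only [card_filter]
    exact sum_comm
  have h1 : ∀ i : Fin m, (univ.filter fun π : Equiv.Perm (Hf m) => Bad g a π i) ⊆
      (univ : Finset Bool).biUnion fun b => (range g).biUnion fun r =>
        ((univ : Finset (Fin r → Hf m)).filter fun t =>
          (i :: (List.ofFn t).map Prod.fst).Nodup).biUnion fun t =>
          Zp a (prs (i, b) (List.ofFn t ++ [(i, b)])) := by
    intro i π hπ
    obtain ⟨b, l, hl, hn, hc⟩ := (mem_filter.1 hπ).2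
    rw [mem_biUnion]
    refine ⟨b, mem_univ _, ?_⟩
    rw [mem_biUnion]
    refine ⟨l.length, mem_range.2 hl, ?_⟩
    rw [mem_biUnion]
    refine ⟨l.get, mem_filter.2 ⟨mem_univ _, ?_⟩, (mem_Zp _ _ _).2 ?_⟩
    · rw [List.ofFn_get]
      exact hn
    · rw [List.ofFn_get]
      exact prs_chain a π _ _ hc
  have h2 : ∀ (i : Fin m) (b : Bool) (r : ℕ), r < g →
      2 * m * ∑ t ∈ ((univ : Finset (Fin r → Hf m)).filter fun t =>
          (i :: (List.ofFn t).map Prod.fst).Nodup),
          (Zp a (prs (i, b) (List.ofFn t ++ [(i, b)]))).card ≤ (2 * Δ) ^ (r + 1) * M := by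
    intro i b r hr
    set T := ((univ : Finset (Fin r → Hf m)).filter fun t =>
          (i :: (List.ofFn t).map Prod.fst).Nodup) with hT
    have hTc : T.card ≤ (2 * m) ^ r := by
      calc T.card ≤ (univ : Finset (Fin r → Hf m)).card := card_le_card (filter_subset _ _)
        _ = (2 * m) ^ r := by rw [card_univ, Fintype.card_fun, Fintype.card_fin, hN]
    have h3 : (2 * m) ^ r * (2 * m * ∑ t ∈ T, (Zp a (prs (i, b)
        (List.ofFn t ++ [(i, b)]))).card) ≤ (2 * m) ^ r * ((2 * Δ) ^ (r + 1) * M) := by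
      calc (2 * m) ^ r * (2 * m * ∑ t ∈ T, (Zp a (prs (i, b) (List.ofFn t ++ [(i, b)]))).card)
          = ∑ t ∈ T, (2 * m) ^ (r + 1) *
              (Zp a (prs (i, b) (List.ofFn t ++ [(i, b)]))).card := by
            rw [mul_sum, mul_sum]
            refine sum_congr rfl fun t _ => ?_
            ring
        _ ≤ ∑ t ∈ T, (2 * Δ) ^ (r + 1) * M := by
            refine sum_le_sum fun t ht => ?_
            have h4 := prs_nodup (List.ofFn t) (i, b) (mem_filter.1 ht).2
            have h5 : (prs (i, b) (List.ofFn t ++ [(i, b)])).length = r + 1 := by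
              rw [prs_len, List.length_append, List.length_ofFn, List.length_singleton]
            have h6 := zp_card a Δ hΔ _ h4 (by rw [h5, hN]; omega)
            rw [h5, hN] at h6
            exact h6
        _ = T.card * ((2 * Δ) ^ (r + 1) * M) := by rw [sum_const, smul_eq_mul]
        _ ≤ _ := Nat.mul_le_mul_right _ hTc
    exact Nat.le_of_mul_le_mul_left h3 (pow_pos (by omega) _)
  have h3 : ∀ i : Fin m, 2 * m * (univ.filter fun π : Equiv.Perm (Hf m) => Bad g a π i).card ≤
      2 * ((∑ r ∈ range g, (2 * Δ) ^ (r + 1)) * M) := by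
    intro i
    calc 2 * m * (univ.filter fun π : Equiv.Perm (Hf m) => Bad g a π i).card
        ≤ 2 * m * ∑ b : Bool, ∑ r ∈ range g,
          ∑ t ∈ ((univ : Finset (Fin r → Hf m)).filter fun t =>
          (i :: (List.ofFn t).map Prod.fst).Nodup),
          (Zp a (prs (i, b) (List.ofFn t ++ [(i, b)]))).card := by
          refine Nat.mul_le_mul_left _ ?_
          refine (card_le_card (h1 i)).trans (card_biUnion_le.trans (sum_le_sum fun b _ => ?_))
          exact card_biUnion_le.trans (sum_le_sum fun r _ => card_biUnion_le)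
      _ = ∑ b : Bool, ∑ r ∈ range g, 2 * m *
          ∑ t ∈ ((univ : Finset (Fin r → Hf m)).filter fun t =>
          (i :: (List.ofFn t).map Prod.fst).Nodup),
          (Zp a (prs (i, b) (List.ofFn t ++ [(i, b)]))).card := by
          rw [mul_sum]
          exact sum_congr rfl fun b _ => mul_sum _ _ _
      _ ≤ ∑ b : Bool, ∑ r ∈ range g, (2 * Δ) ^ (r + 1) * M :=
          sum_le_sum fun b _ => sum_le_sum fun r hr => h2 i b r (mem_range.1 hr)
      _ = _ := by
          rw [sum_const, ← sum_mul, card_univ, Fintype.card_bool, smul_eq_mul]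
  have h4 : 2 * m * ∑ i : Fin m, (univ.filter fun π : Equiv.Perm (Hf m) => Bad g a π i).card ≤
      2 * m * ((∑ r ∈ range g, (2 * Δ) ^ (r + 1)) * M) := by
    calc 2 * m * ∑ i : Fin m, (univ.filter fun π : Equiv.Perm (Hf m) => Bad g a π i).card
        = ∑ i : Fin m, 2 * m * (univ.filter fun π : Equiv.Perm (Hf m) => Bad g a π i).card :=
          mul_sum _ _ _
      _ ≤ ∑ i : Fin m, 2 * ((∑ r ∈ range g, (2 * Δ) ^ (r + 1)) * M) :=
          sum_le_sum fun i _ => h3 i
      _ = _ := by
          rw [sum_const, card_univ, Fintype.card_fin, smul_eq_mul]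
          ring
  rw [h0]
  exact Nat.le_of_mul_le_mul_left h4 (by omega)

end Pool.Agent.L0h47.GS
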