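import Pool.Agent.L0h98.GS.Def
import Pool.Agent.N814.LF_UP
import Pool.Agent.N404.LF.Fact

set_option autoImplicit false

/-!
# Project GS, piece UPM: configurations compatible with a relation of types, upper bound
-/

namespace Pool.Agent.L0h47.GS

open Finset Classical Pool.Agent.L0h98.GS
open Pool.Agent.N404.LF (cnt S_FACT proof_FACT)
open Pool.Agent.N814.LF_UP (wt Wt Fc Wt_pos Fc_le sum_le wt_nonneg)

/-- **UPM** -/
theorem t_UPM : S_UPM := by
  intro A _ m f R hm
  have hcard : Fintype.card (Hf m) = 2 * m := by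
    rw [Fintype.card_prod, Fintype.card_fin, Fintype.card_bool, mul_comm]
  obtain ⟨e⟩ : Nonempty (Hf m ≃ Fin (2 * m)) := ⟨Fintype.equivFinOfCardEq hcard⟩
  have hN : 1 ≤ 2 * m := by omega
  obtain ⟨F, hF⟩ : ∃ F : Fin (2 * m) → A, F = f ∘ e.symm := ⟨_, rfl⟩
  have hFe : ∀ x, F (e x) = f x := fun x => by rw [hF, Function.comp_apply, Equiv.symm_apply_apply]
  have hcnt : ∀ a, cnt F a = cnt f a := by
    intro a
    unfold cnt
    refine Finset.card_equiv e.symm fun x => ?_
    simp only [mem_filter, mem_univ, true_and, hF, Function.comp_apply]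
  obtain ⟨h, hh⟩ : ∃ h : A → A → ℝ, h = fun a b => if R a b then wt F a * wt F b else 0 := ⟨_, rfl⟩
  have h0 : ∀ a b, 0 ≤ h a b := by
    intro a b
    rw [hh]
    dsimp only
    split_ifs
    · exact mul_nonneg (wt_nonneg _ _) (wt_nonneg _ _)
    · exact le_rfl
  obtain ⟨H, hH⟩ : ∃ H : (Fin (2 * m) → A) → ℝ,
      H = fun f' => ∏ i : Fin m, h (f' (e (i, false))) (f' (e (i, true))) := ⟨_, rfl⟩
  have hH0 : ∀ f', 0 ≤ H f' := by
    intro f'
    rw [hH]
    exact Finset.prod_nonneg fun x _ => h0 _ _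
  have hup := sum_le F H hH0
  have hsum : ∑ f', H f' = (∑ a, ∑ b, h a b) ^ m := by
    rw [← Fintype.sum_prod_type' (f := h), Fintype.sum_pow, hH]
    refine Fintype.sum_equiv (((Equiv.arrowCongr e.symm (Equiv.refl A)).trans
      (Equiv.curry (Fin m) Bool A)).trans
        (Equiv.piCongrRight fun _ => Equiv.boolArrowEquivProd A)) _ _ (fun f' => ?_)
    rfl
  have hprod : ∀ r : Equiv.Perm (Fin (2 * m)),
      ∏ i : Fin m, wt F (F (r (e (i, false)))) * wt F (F (r (e (i, true)))) = Wt F := by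
    intro r
    unfold Wt
    rw [← Equiv.prod_comp r, ← Equiv.prod_comp e, Fintype.prod_prod_type]
    refine Finset.prod_congr rfl fun i _ => ?_
    rw [Fintype.prod_bool, mul_comm]
  have hev : ∑ r : Equiv.Perm (Fin (2 * m)), H (F ∘ r) = Wt F *
      ((univ.filter fun π : Equiv.Perm (Hf m) =>
        ∀ i, R (f (π (i, false))) (f (π (i, true)))).card : ℝ) := by
    rw [← Equiv.sum_comp (e.permCongr), Finset.card_filter]
    push_cast
    rw [Finset.mul_sum]
    refine Finset.sum_congr rfl fun π _ => ?_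
    have h2 : H (F ∘ (e.permCongr π)) = ∏ i : Fin m, h (f (π (i, false))) (f (π (i, true))) := by
      rw [hH]
      refine Finset.prod_congr rfl fun i _ => ?_
      simp only [Function.comp_apply, Equiv.permCongr_apply, Equiv.symm_apply_apply, hFe]
    rw [h2, hh]
    split_ifs with h3
    · rw [mul_one]
      dsimp only
      rw [Finset.prod_congr rfl (fun x _ => if_pos (h3 x)), ← hprod (e.permCongr π)]
      refine Finset.prod_congr rfl fun i _ => ?_
      simp only [Equiv.permCongr_apply, Equiv.symm_apply_apply, hFe]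
    · rw [mul_zero]
      push Not at h3
      obtain ⟨x, hx⟩ := h3
      exact Finset.prod_eq_zero (Finset.mem_univ x) (if_neg hx)
  rw [hev, hsum] at hup
  have hf := Fc_le proof_FACT hN F
  have hW := Wt_pos hN F
  have hS : 0 ≤ ∑ a, ∑ b, h a b :=
    Finset.sum_nonneg fun a _ => Finset.sum_nonneg fun b _ => h0 _ _
  have hgoal : (∑ x, ∑ y, if R x y then ((cnt f x : ℝ) / (2 * m)) * ((cnt f y : ℝ) / (2 * m))
      else 0) = ∑ a, ∑ b, h a b := by
    rw [hh]
    refine Finset.sum_congr rfl fun a _ => Finset.sum_congr rfl fun b _ => ?_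
    show _ = if R a b then ((cnt F a : ℝ) / ((2 * m : ℕ) : ℝ)) *
      ((cnt F b : ℝ) / ((2 * m : ℕ) : ℝ)) else 0
    rw [hcnt, hcnt]
    push_cast
    rfl
  rw [hgoal]
  push_cast at hf
  refine le_of_mul_le_mul_left ?_ hW
  calc Wt F * ((univ.filter fun π : Equiv.Perm (Hf m) =>
        ∀ i, R (f (π (i, false))) (f (π (i, true)))).card : ℝ)
      ≤ Fc F * (∑ a, ∑ b, h a b) ^ m := hup
    _ ≤ ((3 * (2 * (m : ℝ) + 1)) ^ (Fintype.card A) * ((2 * m).factorial : ℝ) * Wt F) *
          (∑ a, ∑ b, h a b) ^ m := mul_le_mul_of_nonneg_right hf (by positivity)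
    _ = _ := by ring

end Pool.Agent.L0h47.GS
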