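import Pool.Agent.L0h98.GS.Def
import Pool.Agent.N97.LF_SPA

set_option autoImplicit false

/-!
# Project GS, piece SPM: small sets of vertices span few edges
-/

namespace Pool.Agent.L0h47.GS

open Finset Classical Pool.Agent.L0h98.GS
open Pool.Agent.N404.LF (cnt)
open Pool.Agent.N97.LF (pow_self_le)

section general

variable {X : Type} [Fintype X] [DecidableEq X]

/-- the permutations which map `S` into `T` -/
noncomputable def mpx (S T : Finset X) : Finset (Equiv.Perm X) :=
  univ.filter fun π => ∀ a ∈ S, π a ∈ T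

lemma mem_mpx (S T : Finset X) (π : Equiv.Perm X) : π ∈ mpx S T ↔ ∀ a ∈ S, π a ∈ T := by
  unfold mpx
  rw [mem_filter]
  exact ⟨fun h => h.2, fun h => ⟨mem_univ _, h⟩⟩

lemma mpx_pre (S T : Finset X) (π : Equiv.Perm X) (h : π ∈ mpx S T) :
    (univ.filter fun y => y ∉ S ∧ π y ∈ T).card = T.card - S.card := by
  have h1 : (univ.filter fun y => y ∉ S ∧ π y ∈ T) = (T.map π.symm.toEmbedding) \ S := by
    ext y
    simp only [mem_filter, mem_univ, true_and, mem_sdiff, mem_map_equiv, Equiv.symm_symm]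
    tauto
  rw [h1, card_sdiff_of_subset, card_map]
  intro a ha
  rw [mem_map_equiv, Equiv.symm_symm]
  exact (mem_mpx _ _ _).1 h a ha

lemma mpx_step (S T : Finset X) (x : X) (hx : x ∉ S) :
    (Fintype.card X - S.card) * (mpx (insert x S) T).card ≤
      (T.card - S.card) * (mpx S T).card := by
  have h1 : ((mpx (insert x S) T) ×ˢ Sᶜ).card ≤
      ((mpx S T).sigma fun π => univ.filter fun y => y ∉ S ∧ π y ∈ T).card := by
    apply card_le_card_of_injOn
      (fun p => (⟨p.1 * Equiv.swap x p.2, p.2⟩ : (_ : Equiv.Perm X) × X))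
    · rintro ⟨π, y⟩ hp
      rw [mem_coe, mem_product] at hp
      obtain ⟨hp1, hp2⟩ := hp
      have hy : y ∉ S := mem_compl.1 hp2
      have hπ := (mem_mpx _ _ _).1 hp1
      rw [mem_coe, mem_sigma]
      refine ⟨(mem_mpx _ _ _).2 fun a ha => ?_, mem_filter.2 ⟨mem_univ _, hy, ?_⟩⟩
      · have ha1 : a ≠ x := fun h => hx (h ▸ ha)
        have ha2 : a ≠ y := fun h => hy (h ▸ ha)
        show (π * Equiv.swap x y) a ∈ T
        rw [Equiv.Perm.mul_apply, Equiv.swap_apply_of_ne_of_ne ha1 ha2]
        exact hπ a (mem_insert_of_mem ha)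
      · show (π * Equiv.swap x y) y ∈ T
        rw [Equiv.Perm.mul_apply, Equiv.swap_apply_right]
        exact hπ x (mem_insert_self _ _)
    · rintro ⟨π, y⟩ _ ⟨π', y'⟩ _ h
      simp only [Sigma.mk.injEq, heq_eq_eq] at h
      obtain ⟨h1, h2⟩ := h
      subst h2
      rw [mul_left_inj] at h1
      rw [h1]
  rw [card_product, card_compl, card_sigma,
    sum_congr rfl (fun π hπ => mpx_pre S T π hπ), sum_const, smul_eq_mul] at h1
  calc (Fintype.card X - S.card) * (mpx (insert x S) T).card =
        (mpx (insert x S) T).card * (Fintype.card X - S.card) := mul_comm _ _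
    _ ≤ (mpx S T).card * (T.card - S.card) := h1
    _ = _ := mul_comm _ _

lemma mpx_card (S T : Finset X) :
    Fintype.card X ^ S.card * (mpx S T).card ≤ T.card ^ S.card * (Fintype.card X).factorial := by
  set N := Fintype.card X with hN
  induction S using Finset.induction_on with
  | empty =>
    have h1 : (mpx (∅ : Finset X) T).card ≤ N.factorial := by
      calc (mpx (∅ : Finset X) T).card ≤ (univ : Finset (Equiv.Perm X)).card :=
            card_le_card (filter_subset _ _)
        _ = N.factorial := by rw [card_univ, Fintype.card_perm]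
    simpa using h1
  | insert x S hx ih =>
    rw [card_insert_of_notMem hx]
    have hSN : S.card < N := by
      have h1 : (insert x S).card ≤ N := card_le_univ (insert x S)
      rw [card_insert_of_notMem hx] at h1
      omega
    have hT : T.card ≤ N := card_le_univ T
    have h1 := mpx_step S T x hx
    have h2 : N * (mpx (insert x S) T).card ≤ T.card * (mpx S T).card := by
      have h3 : N * (T.card - S.card) ≤ T.card * (N - S.card) := by
        rw [Nat.mul_sub, Nat.mul_sub, mul_comm T.card N]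
        exact Nat.sub_le_sub_left (Nat.mul_le_mul_right _ hT) _
      have h4 : (N - S.card) * (N * (mpx (insert x S) T).card) ≤
          (N - S.card) * (T.card * (mpx S T).card) := by
        calc (N - S.card) * (N * (mpx (insert x S) T).card) =
              N * ((N - S.card) * (mpx (insert x S) T).card) := by ring
          _ ≤ N * ((T.card - S.card) * (mpx S T).card) := Nat.mul_le_mul_left _ h1
          _ = (N * (T.card - S.card)) * (mpx S T).card := by ring
          _ ≤ (T.card * (N - S.card)) * (mpx S T).card := Nat.mul_le_mul_right _ h3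
          _ = _ := by ring
      exact Nat.le_of_mul_le_mul_left h4 (by omega)
    calc N ^ (S.card + 1) * (mpx (insert x S) T).card =
          N ^ S.card * (N * (mpx (insert x S) T).card) := by ring
      _ ≤ N ^ S.card * (T.card * (mpx S T).card) := Nat.mul_le_mul_left _ h2
      _ = T.card * (N ^ S.card * (mpx S T).card) := by ring
      _ ≤ T.card * (T.card ^ S.card * N.factorial) := Nat.mul_le_mul_left _ ih
      _ = _ := by ring

end general

variable {V : Type} [Fintype V] {m : ℕ} (a : Hf m → V) (Δ : ℕ)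

lemma card_Hf (m : ℕ) : Fintype.card (Hf m) = 2 * m := by
  rw [Fintype.card_prod, Fintype.card_fin, Fintype.card_bool, mul_comm]

omit [Fintype V] in
lemma pre_set (hΔ : ∀ v, cnt a v ≤ Δ) (U : Finset V) :
    (univ.filter fun x => a x ∈ U).card ≤ Δ * U.card := by
  rw [card_eq_sum_card_fiberwise (f := a) (t := U)
    (fun x hx => mem_coe.2 (mem_filter.1 (mem_coe.1 hx)).2)]
  calc ∑ v ∈ U, (filter (fun x => a x = v) (univ.filter fun x => a x ∈ U)).card
      ≤ ∑ v ∈ U, Δ := by
        refine sum_le_sum fun v _ => le_trans ?_ (hΔ v)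
        unfold cnt
        exact card_le_card fun x hx => mem_filter.2 ⟨mem_univ _, (mem_filter.1 hx).2⟩
    _ = Δ * U.card := by rw [sum_const, smul_eq_mul, mul_comm]

omit [Fintype V] in
/-- one set `U` -/
lemma one_set (hΔ : ∀ v, cnt a v ≤ Δ) (U : Finset V) :
    (2 * m) ^ (4 * U.card) * (univ.filter fun π : Equiv.Perm (Hf m) =>
      2 * U.card ≤ eC a π U).card ≤
    m.choose (2 * U.card) * ((Δ * U.card) ^ (4 * U.card) * (2 * m).factorial) := by
  set T : Finset (Hf m) := univ.filter fun x => a x ∈ U with hT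
  have hTc : T.card ≤ Δ * U.card := pre_set a Δ hΔ U
  have h1 : (univ.filter fun π : Equiv.Perm (Hf m) => 2 * U.card ≤ eC a π U) ⊆
      (powersetCard (2 * U.card) (univ : Finset (Fin m))).biUnion fun S =>
        mpx (S ×ˢ (univ : Finset Bool)) T := by
    intro π hπ
    have hπ' := (mem_filter.1 hπ).2
    unfold eC at hπ'
    obtain ⟨S, hS, hSc⟩ := exists_subset_card_eq hπ'
    rw [mem_biUnion]
    refine ⟨S, mem_powersetCard.2 ⟨subset_univ _, hSc⟩, (mem_mpx _ _ _).2 ?_⟩
    rintro ⟨i, b⟩ hp
    have h2 := (mem_filter.1 (hS (mem_product.1 hp).1)).2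
    refine mem_filter.2 ⟨mem_univ _, ?_⟩
    cases b
    · exact h2.1
    · exact h2.2
  calc (2 * m) ^ (4 * U.card) * (univ.filter fun π : Equiv.Perm (Hf m) =>
        2 * U.card ≤ eC a π U).card
      ≤ (2 * m) ^ (4 * U.card) * ∑ S ∈ powersetCard (2 * U.card) (univ : Finset (Fin m)),
          (mpx (S ×ˢ (univ : Finset Bool)) T).card :=
        Nat.mul_le_mul_left _ ((card_le_card h1).trans card_biUnion_le)
    _ = ∑ S ∈ powersetCard (2 * U.card) (univ : Finset (Fin m)), (2 * m) ^ (4 * U.card) *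
          (mpx (S ×ˢ (univ : Finset Bool)) T).card := mul_sum _ _ _
    _ ≤ ∑ S ∈ powersetCard (2 * U.card) (univ : Finset (Fin m)),
          (Δ * U.card) ^ (4 * U.card) * (2 * m).factorial := by
        refine sum_le_sum fun S hS => ?_
        have h3 := mpx_card (S ×ˢ (univ : Finset Bool)) T
        have h4 : (S ×ˢ (univ : Finset Bool)).card = 4 * U.card := by
          rw [card_product, (mem_powersetCard.1 hS).2, card_univ, Fintype.card_bool]
          ring
        rw [h4, card_Hf] at h3
        exact h3.trans (Nat.mul_le_mul_right _ (Nat.pow_le_pow_left hTc _))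
    _ = _ := by
        rw [sum_const, smul_eq_mul, card_powersetCard, card_univ, Fintype.card_fin]

/-- the sets with `u` elements -/
lemma size (h1a : ∀ v, 1 ≤ cnt a v) (hΔ : ∀ v, cnt a v ≤ Δ) (hm : 0 < m) (u : ℕ) :
    m ^ u * (univ.filter fun π : Equiv.Perm (Hf m) => ∃ U : Finset V,
      U.card = u ∧ 2 * U.card ≤ eC a π U).card ≤
    (27 * Δ ^ 4 * u) ^ u * (2 * m).factorial := by
  set B := (univ.filter fun π : Equiv.Perm (Hf m) => ∃ U : Finset V,
      U.card = u ∧ 2 * U.card ≤ eC a π U).card with hB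
  set M := (2 * m).factorial with hM
  have hV : Fintype.card V ≤ 2 * m := by
    rw [← card_Hf m]
    refine Fintype.card_le_of_surjective a fun v => ?_
    have h1 := h1a v
    unfold cnt at h1
    obtain ⟨x, hx⟩ := card_pos.1 (lt_of_lt_of_le Nat.one_pos h1)
    exact ⟨x, (mem_filter.1 hx).2⟩
  have h1 : B ≤ ∑ U ∈ powersetCard u (univ : Finset V),
      (univ.filter fun π : Equiv.Perm (Hf m) => 2 * U.card ≤ eC a π U).card := by
    rw [hB]
    refine (card_le_card ?_).trans card_biUnion_le
    intro π hπ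
    obtain ⟨U, hU, hU2⟩ := (mem_filter.1 hπ).2
    rw [mem_biUnion]
    exact ⟨U, mem_powersetCard.2 ⟨subset_univ _, hU⟩, mem_filter.2 ⟨mem_univ _, hU2⟩⟩
  have h2 : (2 * m) ^ (4 * u) * B ≤ (Fintype.card V).choose u *
      (m.choose (2 * u) * ((Δ * u) ^ (4 * u) * M)) := by
    calc (2 * m) ^ (4 * u) * B ≤ (2 * m) ^ (4 * u) * ∑ U ∈ powersetCard u (univ : Finset V),
        (univ.filter fun π : Equiv.Perm (Hf m) => 2 * U.card ≤ eC a π U).card :=
          Nat.mul_le_mul_left _ h1
      _ = ∑ U ∈ powersetCard u (univ : Finset V), (2 * m) ^ (4 * u) *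
        (univ.filter fun π : Equiv.Perm (Hf m) => 2 * U.card ≤ eC a π U).card :=
          mul_sum _ _ _
      _ ≤ ∑ U ∈ powersetCard u (univ : Finset V),
            (m.choose (2 * u) * ((Δ * u) ^ (4 * u) * M)) := by
          refine sum_le_sum fun U hU => ?_
          have h3 := one_set a Δ hΔ U
          rw [(mem_powersetCard.1 hU).2] at h3 ⊢
          exact h3
      _ = _ := by
          rw [sum_const, smul_eq_mul, card_powersetCard, card_univ]
  have h3 : u.factorial * (Fintype.card V).choose u ≤ (2 * m) ^ u := by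
    rw [← Nat.descFactorial_eq_factorial_mul_choose]
    exact (Nat.descFactorial_le_pow _ _).trans (Nat.pow_le_pow_left hV _)
  have h4 : (2 * u).factorial * m.choose (2 * u) ≤ m ^ (2 * u) := by
    rw [← Nat.descFactorial_eq_factorial_mul_choose]
    exact Nat.descFactorial_le_pow _ _
  have h5 : u ^ (2 * u) ≤ 9 ^ u * (2 * u).factorial := by
    calc u ^ (2 * u) ≤ (2 * u) ^ (2 * u) := Nat.pow_le_pow_left (by omega) _
      _ ≤ 3 ^ (2 * u) * (2 * u).factorial := pow_self_le _
      _ = _ := by rw [pow_mul]; norm_num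
  have h6 : (Δ * u) ^ (4 * u) ≤
      (27 * Δ ^ 4 * u) ^ u * u.factorial * (2 * u).factorial := by
    calc (Δ * u) ^ (4 * u) = (Δ ^ 4) ^ u * u ^ u * u ^ u * u ^ (2 * u) := by
          rw [mul_pow, pow_mul Δ 4 u, show 4 * u = u + u + 2 * u by ring, pow_add, pow_add]
          ring
      _ ≤ (Δ ^ 4) ^ u * u ^ u * (3 ^ u * u.factorial) * (9 ^ u * (2 * u).factorial) :=
          Nat.mul_le_mul (Nat.mul_le_mul_left _ (pow_self_le u)) h5
      _ = _ := by
          rw [mul_pow, mul_pow, show (27 : ℕ) = 3 * 9 by norm_num, mul_pow]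
          ring
  have h7 : ((2 * m) ^ u * m ^ (2 * u)) * (m ^ u * B) ≤
      ((2 * m) ^ u * m ^ (2 * u)) * ((27 * Δ ^ 4 * u) ^ u * M) := by
    calc ((2 * m) ^ u * m ^ (2 * u)) * (m ^ u * B)
        ≤ ((2 * m) ^ u * (2 * m) ^ (2 * u)) * ((2 * m) ^ u * B) := by
          refine Nat.mul_le_mul (Nat.mul_le_mul_left _ (Nat.pow_le_pow_left (by omega) _)) ?_
          exact Nat.mul_le_mul_right _ (Nat.pow_le_pow_left (by omega) _)
      _ = (2 * m) ^ (4 * u) * B := by
          rw [← pow_add, ← mul_assoc, ← pow_add]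
          congr 2
          ring
      _ ≤ (Fintype.card V).choose u * (m.choose (2 * u) * ((Δ * u) ^ (4 * u) * M)) := h2
      _ ≤ (Fintype.card V).choose u * (m.choose (2 * u) *
            (((27 * Δ ^ 4 * u) ^ u * u.factorial * (2 * u).factorial) * M)) :=
          Nat.mul_le_mul_left _ (Nat.mul_le_mul_left _ (Nat.mul_le_mul_right _ h6))
      _ = ((u.factorial * (Fintype.card V).choose u) * ((2 * u).factorial * m.choose (2 * u))) *
            ((27 * Δ ^ 4 * u) ^ u * M) := by ring
      _ ≤ _ := Nat.mul_le_mul_right _ (Nat.mul_le_mul h3 h4)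
  exact Nat.le_of_mul_le_mul_left h7 (by positivity)

/-- **SPM** -/
theorem t_SPM : S_SPM := by
  intro Δ
  set K : ℕ := 27 * Δ ^ 4 with hK
  refine ⟨2 * K, fun V _ m a h1a hΔ s hs => ?_⟩
  rcases Nat.eq_zero_or_pos m with h0 | hm
  · subst h0
    rw [zero_mul]
    exact Nat.zero_le _
  set M := (2 * m).factorial with hM
  set B : ℕ → ℕ := fun u => (univ.filter fun π : Equiv.Perm (Hf m) =>
    ∃ U : Finset V, U.card = u ∧ 2 * U.card ≤ eC a π U).card with hB
  have h1 : (univ.filter fun π : Equiv.Perm (Hf m) => ∃ U : Finset V,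
      U.Nonempty ∧ U.card ≤ s ∧ 2 * U.card ≤ eC a π U).card ≤ ∑ j ∈ range s, B (j + 1) := by
    refine (card_le_card (t := (range s).biUnion fun j =>
      (univ.filter fun π : Equiv.Perm (Hf m) =>
        ∃ U : Finset V, U.card = j + 1 ∧ 2 * U.card ≤ eC a π U)) ?_).trans
      card_biUnion_le
    intro π hπ
    obtain ⟨U, hU, hU1, hU2⟩ := (mem_filter.1 hπ).2
    have hU0 := card_pos.2 hU
    rw [mem_biUnion]
    exact ⟨U.card - 1, mem_range.2 (by omega),
      mem_filter.2 ⟨mem_univ _, U, by omega, hU2⟩⟩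
  have h2 : ∀ j < s, 2 ^ j * (m * B (j + 1)) ≤ K * s * M := by
    intro j hj
    have h3 := size a Δ h1a hΔ hm (j + 1)
    rw [← hK, ← hM] at h3
    clear_value K M
    have h4 : (K * (j + 1)) ^ (j + 1) ≤ (K * s) * (K * s) ^ j := by
      calc (K * (j + 1)) ^ (j + 1) ≤ (K * s) ^ (j + 1) :=
            Nat.pow_le_pow_left (Nat.mul_le_mul_left _ hj) _
        _ = _ := by ring
    have h5 : m ^ j * (2 ^ j * (m * B (j + 1))) ≤ m ^ j * (K * s * M) := by
      calc m ^ j * (2 ^ j * (m * B (j + 1))) = 2 ^ j * (m ^ (j + 1) * B (j + 1)) := by ring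
        _ ≤ 2 ^ j * ((K * (j + 1)) ^ (j + 1) * M) := Nat.mul_le_mul_left _ h3
        _ ≤ 2 ^ j * ((K * s) * (K * s) ^ j * M) :=
            Nat.mul_le_mul_left _ (Nat.mul_le_mul_right _ h4)
        _ = (2 * K * s) ^ j * (K * s * M) := by
            rw [show 2 * K * s = 2 * (K * s) by ring, mul_pow 2 (K * s) j]
            ring
        _ ≤ m ^ j * (K * s * M) := Nat.mul_le_mul_right _ (Nat.pow_le_pow_left hs _)
    exact Nat.le_of_mul_le_mul_left h5 (pow_pos hm _)
  have h3 : (m : ℝ) * ∑ j ∈ range s, (B (j + 1) : ℝ) ≤ 2 * K * s * M := by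
    rw [mul_sum]
    calc ∑ j ∈ range s, (m : ℝ) * B (j + 1) ≤ ∑ j ∈ range s, ((K : ℝ) * s * M) * (1 / 2) ^ j := by
          refine sum_le_sum fun j hj => ?_
          have h4 : (2 : ℝ) ^ j * (m * B (j + 1)) ≤ K * s * M := by
            exact_mod_cast h2 j (mem_range.1 hj)
          have h5 : (0 : ℝ) < 2 ^ j := by positivity
          rw [one_div, inv_pow, ← div_eq_mul_inv, le_div_iff₀ h5]
          linarith
      _ = ((K : ℝ) * s * M) * ∑ j ∈ range s, (1 / 2 : ℝ) ^ j := by rw [mul_sum]
      _ ≤ ((K : ℝ) * s * M) * 2 := by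
          refine mul_le_mul_of_nonneg_left ?_ (by positivity)
          have h6 := Summable.sum_le_tsum (f := fun j : ℕ => (1 / 2 : ℝ) ^ j) (range s)
            (fun i _ => by positivity) summable_geometric_two
          rwa [tsum_geometric_two] at h6
      _ = 2 * K * s * M := by ring
  have h4 : m * ∑ j ∈ range s, B (j + 1) ≤ 2 * K * s * M := by exact_mod_cast h3
  exact (Nat.mul_le_mul_left _ h1).trans h4

end Pool.Agent.L0h47.GS
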